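import Pool.Agent.Q214.ESB.DupA
import Pool.Agent.Q161.ESB.Stm6
import Pool.Agent.Q237.ESN.REP

set_option autoImplicit false

/-!
# Job DUP (project ESB of helper161): upper bound for the discriminant
-/

namespace Pool.Agent.Q214.ESB

open NumberField Finset IsDedekindDomain
open Pool.Agent.Q161.ESN (OddAt oddNorm)
open Pool.Agent.Q161.ESB (SupLe Indep El Bas S_DUP)
open scoped Classical

section odd

variable {F : Type} [Field F] [NumberField F]

theorem exists_exp (v : HeightOneSpectrum (𝓞 F)) {x : F} (hx : x ≠ 0) :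
    ∃ n : ℤ, v.valuation F x = WithZero.exp n :=
  ⟨WithZero.log (v.valuation F x), (WithZero.exp_log ((Valuation.ne_zero_iff _).2 hx)).symm⟩

theorem odd_mul {v : HeightOneSpectrum (𝓞 F)} {x y : F} (h1 : OddAt v x) (h2 : OddAt v y) :
    ¬ OddAt v (x * y) := by
  rintro ⟨k, hk⟩
  obtain ⟨k1, hk1⟩ := h1
  obtain ⟨k2, hk2⟩ := h2
  rw [map_mul, hk1, hk2, ← WithZero.exp_add, WithZero.exp_inj] at hk
  omega

theorem odd_or {v : HeightOneSpectrum (𝓞 F)} {x y : F} (hx : x ≠ 0) (hy : y ≠ 0)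
    (h : OddAt v (x * y)) : OddAt v x ∨ OddAt v y := by
  obtain ⟨k, hk⟩ := h
  obtain ⟨a, ha⟩ := exists_exp v hx
  obtain ⟨b, hb⟩ := exists_exp v hy
  rw [map_mul, ha, hb, ← WithZero.exp_add, WithZero.exp_inj] at hk
  rcases Int.even_or_odd' a with ⟨c, hc | hc⟩
  · right
    refine ⟨k - c, ?_⟩
    rw [hb, WithZero.exp_inj]
    omega
  · left
    refine ⟨c, ?_⟩
    rw [ha, WithZero.exp_inj]
    omega

theorem not_odd_one (v : HeightOneSpectrum (𝓞 F)) : ¬ OddAt v (1 : F) := by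
  rintro ⟨k, hk⟩
  rw [map_one, ← WithZero.exp_zero, WithZero.exp_inj] at hk
  omega

theorem odd_prod {m : ℕ} {b : Fin m → F} (hb : ∀ j, b j ≠ 0) (v : HeightOneSpectrum (𝓞 F))
    (S : Finset (Fin m)) (h : OddAt v (∏ j ∈ S, b j)) : ∃ j, OddAt v (b j) := by
  induction S using Finset.induction_on with
  | empty => exact absurd (by simpa using h) (not_odd_one v)
  | insert j S hj ih =>
    rw [prod_insert hj] at h
    rcases odd_or (hb j) (prod_ne_zero_iff.2 fun i _ => hb i) h with h1 | h1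
    · exact ⟨j, h1⟩
    · exact ih h1

/-- toggling `j` -/
def tog {m : ℕ} (j : Fin m) (S : Finset (Fin m)) : Finset (Fin m) := if j ∈ S then S.erase j else insert j S

theorem tog_tog {m : ℕ} (j : Fin m) (S : Finset (Fin m)) : tog j (tog j S) = S := by
  unfold tog
  by_cases h : j ∈ S
  · rw [if_pos h, if_neg (notMem_erase j S), insert_erase h]
  · rw [if_neg h, if_pos (mem_insert_self j S), erase_insert h]

theorem odd_tog {m : ℕ} {b : Fin m → F} {v : HeightOneSpectrum (𝓞 F)} {j : Fin m} (hj : OddAt v (b j))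
    {S : Finset (Fin m)} (hS : OddAt v (∏ i ∈ S, b i)) : ¬ OddAt v (∏ i ∈ tog j S, b i) := by
  unfold tog
  by_cases h : j ∈ S
  · rw [if_pos h]
    intro h1
    refine odd_mul hj h1 ?_
    rw [mul_prod_erase S b h]
    exact hS
  · rw [if_neg h, prod_insert h]
    exact odd_mul hj hS

theorem card_odd {m : ℕ} (hm : 1 ≤ m) {b : Fin m → F} {v : HeightOneSpectrum (𝓞 F)} {j : Fin m}
    (hj : OddAt v (b j)) :
    (univ.filter fun S : Finset (Fin m) => OddAt v (∏ i ∈ S, b i)).card ≤ 2 ^ (m - 1) := by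
  have h1 : (univ.filter fun S : Finset (Fin m) => OddAt v (∏ i ∈ S, b i)).card ≤
      (univ.filter fun S : Finset (Fin m) => ¬ OddAt v (∏ i ∈ S, b i)).card := by
    refine card_le_card_of_injOn (tog j) ?_ ?_
    · intro S hS
      rw [mem_coe, mem_filter] at hS ⊢
      exact ⟨mem_univ _, odd_tog hj hS.2⟩
    · intro S _ T _ hST
      rw [← tog_tog j S, hST, tog_tog]
  have h2 := card_filter_add_card_filter_not (s := (univ : Finset (Finset (Fin m))))
    (fun S : Finset (Fin m) => OddAt v (∏ i ∈ S, b i))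
  rw [card_univ, Fintype.card_finset, Fintype.card_fin] at h2
  have h3 : 2 ^ m = 2 * 2 ^ (m - 1) := by
    rw [← pow_succ']
    congr 1
    omega
  omega

theorem oddNorm_eq {m : ℕ} {b : Fin m → F} (hb : ∀ j, b j ≠ 0)
    (hfin : ∀ D : F, D ≠ 0 → {v : HeightOneSpectrum (𝓞 F) | OddAt v D}.Finite)
    (A : Finset (HeightOneSpectrum (𝓞 F))) (hA : ∀ v, v ∈ A ↔ ∃ j, OddAt v (b j)) (S : Finset (Fin m)) :
    oddNorm (∏ j ∈ S, b j) =
      ∏ v ∈ A, if OddAt v (∏ j ∈ S, b j) then Ideal.absNorm v.asIdeal else 1 := by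
  have h0 : ∏ j ∈ S, b j ≠ 0 := prod_ne_zero_iff.2 fun i _ => hb i
  have h1 : oddNorm (∏ j ∈ S, b j) = ∏ v ∈ (hfin _ h0).toFinset, Ideal.absNorm v.asIdeal :=
    finprod_mem_eq_finite_toFinset_prod _ (hfin _ h0)
  rw [h1, ← prod_filter]
  refine prod_congr ?_ fun _ _ => rfl
  ext v
  rw [Set.Finite.mem_toFinset, mem_filter, Set.mem_ofPred_eq, hA]
  exact ⟨fun h => ⟨odd_prod hb v S h, h⟩, fun h => h.2⟩

theorem prod_oddNorm {m : ℕ} (hm : 1 ≤ m) {b : Fin m → F} (hb : ∀ j, b j ≠ 0)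
    (hfin : ∀ D : F, D ≠ 0 → {v : HeightOneSpectrum (𝓞 F) | OddAt v D}.Finite) {X : ℝ}
    (hX : SupLe b X) :
    ∏ S : Finset (Fin m), (oddNorm (∏ j ∈ S, b j) : ℝ) ≤ X ^ 2 ^ (m - 1) := by
  have hAf : {v : HeightOneSpectrum (𝓞 F) | ∃ j, OddAt v (b j)}.Finite := by
    have : {v : HeightOneSpectrum (𝓞 F) | ∃ j, OddAt v (b j)} = ⋃ j, {v | OddAt v (b j)} := by
      ext v
      simp
    rw [this]
    exact Set.finite_iUnion fun j => hfin _ (hb j)
  obtain ⟨A, hA⟩ : ∃ A : Finset (HeightOneSpectrum (𝓞 F)), ∀ v, v ∈ A ↔ ∃ j, OddAt v (b j) :=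
    ⟨hAf.toFinset, fun v => by rw [Set.Finite.mem_toFinset]; rfl⟩
  have h1 : ∏ S : Finset (Fin m), oddNorm (∏ j ∈ S, b j) ≤
      (∏ v ∈ A, Ideal.absNorm v.asIdeal) ^ 2 ^ (m - 1) := by
    rw [prod_congr rfl fun S _ => oddNorm_eq hb hfin A hA S, prod_comm, ← prod_pow]
    refine prod_le_prod' fun v hv => ?_
    obtain ⟨j, hj⟩ := (hA v).1 hv
    rw [prod_ite, prod_const, prod_const_one, mul_one]
    have hN : 0 < Ideal.absNorm v.asIdeal := by
      rw [Nat.pos_iff_ne_zero, Ne, Ideal.absNorm_eq_zero_iff]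
      exact v.ne_bot
    exact Nat.pow_le_pow_right hN (card_odd hm hj)
  have h2 := hX A fun v hv => (hA v).1 hv
  have h3 : (0 : ℝ) ≤ ∏ v ∈ A, ((Ideal.absNorm v.asIdeal : ℕ) : ℝ) := prod_nonneg fun _ _ => Nat.cast_nonneg _
  calc ∏ S : Finset (Fin m), (oddNorm (∏ j ∈ S, b j) : ℝ)
      = ((∏ S : Finset (Fin m), oddNorm (∏ j ∈ S, b j) : ℕ) : ℝ) := by push_cast; rfl
    _ ≤ (((∏ v ∈ A, Ideal.absNorm v.asIdeal) ^ 2 ^ (m - 1) : ℕ) : ℝ) := by exact_mod_cast h1
    _ = (∏ v ∈ A, ((Ideal.absNorm v.asIdeal : ℕ) : ℝ)) ^ 2 ^ (m - 1) := by push_cast; rfl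
    _ ≤ X ^ 2 ^ (m - 1) := pow_le_pow_left₀ h3 h2 _

omit [NumberField F] in
theorem symm_prod {m : ℕ} (b : Fin m → F) (S T : Finset (Fin m)) :
    (∏ j ∈ S, b j) * ∏ j ∈ T, b j = (∏ j ∈ symmDiff S T, b j) * (∏ j ∈ S ∩ T, b j) ^ 2 := by
  have h1 : symmDiff S T = (S \ T) ∪ (T \ S) := rfl
  have h2 : Disjoint (S \ T) (T \ S) := disjoint_sdiff_sdiff
  rw [h1, prod_union h2, ← prod_inter_mul_prod_sdiff S T, ← prod_inter_mul_prod_sdiff T S, inter_comm T S]
  ring

end odd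

/-- Job DUP. -/
theorem dup : S_DUP := by
  intro F _ _ m hm
  obtain ⟨B0, C, -, hC, hrep⟩ := Pool.Agent.Q237.ESN.rep F
  have hdF : (0 : ℝ) < (discr F).natAbs := by
    exact_mod_cast Nat.pos_of_ne_zero (Int.natAbs_ne_zero.2 (discr_ne_zero F))
  refine ⟨∏ _S : Finset (Fin m), ((2 ^ m : ℝ) ^ Module.finrank ℚ F * C * (discr F).natAbs),
    prod_pos fun _ _ => by positivity, fun K _ _ _ hEl b hb X hX1 hX => ?_⟩
  have hbne := hb.ind.ne
  have hprod : ∀ S : Finset (Fin m), ∏ j ∈ S, b j ≠ 0 := fun S => prod_ne_zero_iff.2 fun i _ => hbne i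
  choose D t ht hD _ hN using fun S : Finset (Fin m) => hrep (∏ j ∈ S, b j) (hprod S)
  choose s hs using hb.sq
  have hcard : Fintype.card (Finset (Fin m)) = 2 ^ m := by
    rw [Fintype.card_finset, Fintype.card_fin]
  have h1 := discr_bound (F := F) (K := K) D (fun S => (∏ j ∈ S, s j) * algebraMap F K (t S)) (by
      intro S
      rw [mul_pow, ← prod_pow, hD S, map_mul, map_prod, map_pow]
      congr 1
      exact prod_congr rfl fun j _ => hs j)
    (by
      intro S h0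
      have h2 := hD S
      rw [h0] at h2
      have h3 : (∏ j ∈ S, b j) * t S ^ 2 = 0 := by
        rw [← h2]
        simp
      exact mul_ne_zero (hprod S) (pow_ne_zero 2 (ht S)) h3)
    (by
      intro S T hST ⟨c, hc⟩
      have hne : (symmDiff S T).Nonempty := by
        rw [nonempty_iff_ne_empty]
        intro h
        exact hST (symmDiff_eq_bot.1 h)
      refine hb.ind.ind _ hne ⟨c / ((∏ j ∈ S ∩ T, b j) * t S * t T), ?_⟩
      have h2 := symm_prod b S T
      have h3 := hprod (S ∩ T)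
      have h4 := ht S
      have h5 := ht T
      rw [hD S, hD T] at hc
      field_simp
      have h6 : (∏ j ∈ symmDiff S T, b j) * ((∏ j ∈ S ∩ T, b j) ^ 2 * t S ^ 2 * t T ^ 2) = c * c := by
        rw [← hc]
        linear_combination (-(t S ^ 2 * t T ^ 2)) * h2
      linear_combination h6)
    (by rw [hEl.deg, hcard])
  have h2 : ((discr K).natAbs : ℝ) ≤ ∏ S : Finset (Fin m), ((2 ^ m : ℝ) ^ Module.finrank ℚ F *
      ((Ideal.absNorm (Ideal.span {D S}) : ℕ) : ℝ) * (discr F).natAbs) := by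
    rw [hcard] at h1
    exact_mod_cast h1
  refine h2.trans ?_
  have h3 : ∏ S : Finset (Fin m), ((2 ^ m : ℝ) ^ Module.finrank ℚ F *
      ((Ideal.absNorm (Ideal.span {D S}) : ℕ) : ℝ) * (discr F).natAbs) ≤
      ∏ S : Finset (Fin m), (((2 ^ m : ℝ) ^ Module.finrank ℚ F * C * (discr F).natAbs) *
        (oddNorm (∏ j ∈ S, b j) : ℝ)) := by
    refine prod_le_prod (fun S _ => by positivity) fun S _ => ?_
    have h4 := hN S
    calc (2 ^ m : ℝ) ^ Module.finrank ℚ F * ((Ideal.absNorm (Ideal.span {D S}) : ℕ) : ℝ) *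
        (discr F).natAbs ≤ (2 ^ m : ℝ) ^ Module.finrank ℚ F * (C * (oddNorm (∏ j ∈ S, b j) : ℝ)) *
        (discr F).natAbs := by gcongr
      _ = _ := by ring
  refine h3.trans ?_
  rw [prod_mul_distrib]
  refine mul_le_mul_of_nonneg_left ?_ (prod_nonneg fun _ _ => by positivity)
  exact prod_oddNorm hm hbne Pool.Agent.Q237.ESN.oddAt_finite hX

end Pool.Agent.Q214.ESB
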