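import Mathlib

set_option autoImplicit false

/-!
# Job DUP (project ESB of helper161), part A: the discriminant of the lattice generated by roots
-/

namespace Pool.Agent.Q214.ESB

open NumberField Finset Polynomial

section trace

variable {F K : Type} [Field F] [Field K] [Algebra F K] [FiniteDimensional F K]

theorem trace_root [CharZero F] {x : K} {a : F} (hx : x ^ 2 = algebraMap F K a) (ha : ¬ IsSquare a) :
    Algebra.trace F K x = 0 := by
  have h1 : Irreducible (X ^ 2 - C a : F[X]) :=
    X_pow_sub_C_irreducible_of_prime Nat.prime_two fun b hb => ha ⟨b, by rw [← hb, sq]⟩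
  have h2 : minpoly F x = X ^ 2 - C a := by
    symm
    refine minpoly.eq_of_irreducible_of_monic h1 ?_ (monic_X_pow_sub_C a (by norm_num))
    simp [hx]
  rw [trace_eq_finrank_mul_minpoly_nextCoeff, h2]
  have h3 : (X ^ 2 - C a : F[X]).nextCoeff = 0 := by
    rw [nextCoeff_of_natDegree_pos (by rw [natDegree_X_pow_sub_C]; norm_num), natDegree_X_pow_sub_C]
    simp [coeff_X_pow]
  rw [h3]
  simp

end trace

section disc

variable {F K : Type} [Field F] [NumberField F] [Field K] [NumberField K] [Algebra F K]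

theorem discr_comp {κ κ' : Type} [Fintype κ] [DecidableEq κ] [Fintype κ'] [DecidableEq κ']
    (B : κ → K) (e : κ ≃ κ') : Algebra.discr ℚ (B ∘ e.symm) = Algebra.discr ℚ B := by
  have h : Algebra.traceMatrix ℚ (B ∘ e.symm) = (Algebra.traceMatrix ℚ B).submatrix e.symm e.symm := by
    ext i j
    simp [Algebra.traceMatrix_apply]
  rw [Algebra.discr_def, h, Matrix.det_submatrix_equiv_self, ← Algebra.discr_def]

/-- the discriminant of a family of integers, of the right cardinality, is at least that of the field -/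
theorem discr_le_of {κ : Type} [Fintype κ] [DecidableEq κ] (B : κ → 𝓞 K)
    (hc : Fintype.card κ = Module.finrank ℚ K)
    (h0 : Algebra.discr ℚ (fun x => (B x : K)) ≠ 0) :
    ((discr K).natAbs : ℚ) ≤ |Algebra.discr ℚ (fun x => (B x : K))| := by
  classical
  have hc' : Fintype.card κ = Fintype.card (Module.Free.ChooseBasisIndex ℤ (𝓞 K)) := by
    rw [hc, ← RingOfIntegers.rank, Module.finrank_eq_card_chooseBasisIndex]
  let e : κ ≃ Module.Free.ChooseBasisIndex ℤ (𝓞 K) := Fintype.equivOfCardEq hc'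
  let P : Matrix (Module.Free.ChooseBasisIndex ℤ (𝓞 K)) (Module.Free.ChooseBasisIndex ℤ (𝓞 K)) ℤ :=
    Matrix.of fun y x => (RingOfIntegers.basis K).repr (B (e.symm x)) y
  have h1 : (fun x => (B x : K)) ∘ e.symm =
      Matrix.vecMul (integralBasis K) (P.map (algebraMap ℤ K)) := by
    funext x
    have h2 := (RingOfIntegers.basis K).sum_repr (B (e.symm x))
    have h3 := congrArg (algebraMap (𝓞 K) K) h2
    rw [map_sum] at h3
    show algebraMap (𝓞 K) K (B (e.symm x)) = _
    rw [← h3]
    unfold Matrix.vecMul dotProduct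
    refine sum_congr rfl fun y _ => ?_
    have h5 : (P.map (algebraMap ℤ K)) y x =
        (((RingOfIntegers.basis K).repr (B (e.symm x)) y : ℤ) : K) := by
      simp [P]
    change algebraMap (𝓞 K) K _ = integralBasis K y * (P.map (algebraMap ℤ K)) y x
    rw [h5, integralBasis_apply, zsmul_eq_mul, map_mul, map_intCast, mul_comm]
  have h2 : (P.map (algebraMap ℤ K)) = ((P.map (algebraMap ℤ ℚ)).map (algebraMap ℚ K)) := by
    ext i j
    simp
  have h3 : Algebra.discr ℚ (fun x => (B x : K)) = ((P.det : ℤ) : ℚ) ^ 2 * (discr K : ℚ) := by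
    rw [← discr_comp (fun x => (B x : K)) e, h1, h2, Algebra.discr_of_matrix_vecMul,
      coe_discr]
    congr 2
    exact (RingHom.map_det (algebraMap ℤ ℚ) P).symm
  rw [h3] at h0 ⊢
  have h4 : P.det ≠ 0 := by
    intro h
    rw [h] at h0
    simp at h0
  have h5 : (1 : ℚ) ≤ ((P.det : ℤ) : ℚ) ^ 2 := by
    have : (1 : ℤ) ≤ P.det ^ 2 := by
      have := sq_pos_of_ne_zero h4 
      omega
    exact_mod_cast this
  have h6 : ((discr K).natAbs : ℚ) = |(discr K : ℚ)| := by
    rw [← Int.cast_abs, Int.abs_eq_natAbs]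
    simp
  rw [h6, abs_mul, abs_of_nonneg (by positivity : (0 : ℚ) ≤ ((P.det : ℤ) : ℚ) ^ 2)]
  nlinarith [abs_nonneg (discr K : ℚ)]

/-- the determinant of the twisted trace form -/
theorem det_twist {ι : Type} [Fintype ι] [DecidableEq ι] (ω : Module.Basis ι ℚ F) (a : F) :
    (Matrix.of fun i j => Algebra.trace ℚ F (a * (ω i * ω j))).det =
      Algebra.norm ℚ a * Algebra.discr ℚ ω := by
  have h1 : (Matrix.of fun i j => Algebra.trace ℚ F (a * (ω i * ω j))) =
      (Algebra.leftMulMatrix ω a).transpose * Algebra.traceMatrix ℚ ω := by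
    ext i j
    rw [Matrix.of_apply, Matrix.mul_apply]
    have h2 : a * ω i = ∑ k, Algebra.leftMulMatrix ω a k i • ω k := by
      have h3 := ω.sum_repr (a * ω i)
      rw [← h3]
      refine sum_congr rfl fun k _ => ?_
      rw [Algebra.leftMulMatrix_eq_repr_mul]
    have h3 : a * (ω i * ω j) = ∑ k, Algebra.leftMulMatrix ω a k i • (ω k * ω j) := by
      rw [← mul_assoc, h2, sum_mul]
      refine sum_congr rfl fun k _ => ?_
      rw [smul_mul_assoc]
    rw [h3, map_sum]
    refine sum_congr rfl fun k _ => ?_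
    rw [map_smul, smul_eq_mul, Matrix.transpose_apply, Algebra.traceMatrix_apply, Algebra.traceForm_apply]
  rw [h1, Matrix.det_mul, Matrix.det_transpose, Algebra.norm_eq_matrix_det ω, Algebra.discr_def]

/-- the discriminant of the family `r_S ω_i` -/
theorem discr_family {σ : Type} [Fintype σ] [DecidableEq σ] (D : σ → F) (r : σ → K)
    (hr : ∀ S, r S ^ 2 = algebraMap F K (D S)) (ho : ∀ S T, S ≠ T → Algebra.trace F K (r S * r T) = 0)
    {ι : Type} [Fintype ι] [DecidableEq ι] (ω : Module.Basis ι ℚ F) :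
    Algebra.discr ℚ (fun t : ι × σ => r t.2 * algebraMap F K (ω t.1)) =
      ∏ S, (Algebra.norm ℚ ((Module.finrank F K : F) * D S) * Algebra.discr ℚ ω) := by
  have h1 : Algebra.traceMatrix ℚ (fun t : ι × σ => r t.2 * algebraMap F K (ω t.1)) =
      Matrix.blockDiagonal fun S => Matrix.of fun i j =>
        Algebra.trace ℚ F (((Module.finrank F K : F) * D S) * (ω i * ω j)) := by
    ext ⟨i, S⟩ ⟨j, T⟩
    rw [Algebra.traceMatrix_apply, Algebra.traceForm_apply, Matrix.blockDiagonal_apply,
      Matrix.of_apply]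
    have h2 : (r S * algebraMap F K (ω i)) * (r T * algebraMap F K (ω j)) =
        (ω i * ω j) • (r S * r T) := by
      rw [Algebra.smul_def, map_mul]
      ring
    show Algebra.trace ℚ K ((r S * algebraMap F K (ω i)) * (r T * algebraMap F K (ω j))) = _
    rw [h2, ← Algebra.trace_trace (S := F), map_smul, smul_eq_mul]
    by_cases h : S = T
    · subst h
      rw [if_pos rfl, ← sq, hr S, Algebra.trace_algebraMap, nsmul_eq_mul]
      congr 1
      ring
    · rw [if_neg h, ho S T h, mul_zero, map_zero]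
  rw [Algebra.discr_def, h1, Matrix.det_blockDiagonal]
  exact prod_congr rfl fun S _ => det_twist ω _

/-- the upper bound for the discriminant -/
theorem discr_bound {σ : Type} [Fintype σ] [DecidableEq σ] (D : σ → 𝓞 F) (r : σ → K)
    (hr : ∀ S, r S ^ 2 = algebraMap F K (D S)) (hD : ∀ S, D S ≠ 0)
    (hns : ∀ S T, S ≠ T → ¬ IsSquare ((D S : F) * D T)) (hdeg : Module.finrank F K = Fintype.card σ) :
    (discr K).natAbs ≤ ∏ S, (Fintype.card σ ^ Module.finrank ℚ F * Ideal.absNorm (Ideal.span {D S}) *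
      (discr F).natAbs) := by
  classical
  have hint : ∀ S, IsIntegral ℤ (r S) := fun S => by
    refine IsIntegral.of_pow (n := 2) (by norm_num) ?_
    rw [hr]
    exact (RingOfIntegers.isIntegral_coe (D S)).map (algebraMap F K).toIntAlgHom
  let R : σ → 𝓞 K := fun S => ⟨r S, hint S⟩
  let B : Module.Free.ChooseBasisIndex ℤ (𝓞 F) × σ → 𝓞 K := fun t =>
    R t.2 * algebraMap (𝓞 F) (𝓞 K) (RingOfIntegers.basis F t.1)
  have hB : (fun t => (B t : K)) = fun t => r t.2 * algebraMap F K (integralBasis F t.1) := by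
    funext t
    change algebraMap (𝓞 K) K (R t.2 * algebraMap (𝓞 F) (𝓞 K) (RingOfIntegers.basis F t.1)) = _
    rw [map_mul, integralBasis_apply]
    rfl
  have ho : ∀ S T, S ≠ T → Algebra.trace F K (r S * r T) = 0 := by
    intro S T h
    refine trace_root (a := (D S : F) * D T) ?_ (hns S T h)
    rw [mul_pow, hr, hr, map_mul]
  have h1 := discr_family (fun S => (D S : F)) r (fun S => hr S) ho (integralBasis F)
  rw [← hB, ← coe_discr] at h1
  have hn : ∀ S, Algebra.norm ℚ ((Module.finrank F K : F) * (D S : F)) =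
      (Fintype.card σ : ℚ) ^ Module.finrank ℚ F * ((Algebra.norm ℤ (D S) : ℤ) : ℚ) := by
    intro S
    rw [map_mul, hdeg, Algebra.coe_norm_int]
    congr 1
    have : ((Fintype.card σ : ℕ) : F) = algebraMap ℚ F (Fintype.card σ : ℚ) := by simp
    rw [this, Algebra.norm_algebraMap]
  have hcard : (Fintype.card σ : ℚ) ≠ 0 := by
    rw [← hdeg]
    exact_mod_cast (Module.finrank_pos (R := F) (M := K)).ne'
  have hN : ∀ S, ((Algebra.norm ℤ (D S) : ℤ) : ℚ) ≠ 0 := fun S => by
    exact_mod_cast Algebra.norm_ne_zero_iff.2 (hD S)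
  have hdF : (discr F : ℚ) ≠ 0 := by exact_mod_cast discr_ne_zero F
  have h0 : Algebra.discr ℚ (fun t => (B t : K)) ≠ 0 := by
    rw [h1]
    refine prod_ne_zero_iff.2 fun S _ => ?_
    rw [hn]
    exact mul_ne_zero (mul_ne_zero (pow_ne_zero _ hcard) (hN S)) hdF
  have h2 := discr_le_of B (by
    rw [Fintype.card_prod, ← Module.finrank_eq_card_chooseBasisIndex, RingOfIntegers.rank, ← hdeg,
      Module.finrank_mul_finrank]) h0
  rw [h1, abs_prod] at h2
  have h3 : ∀ S ∈ (univ : Finset σ), |Algebra.norm ℚ ((Module.finrank F K : F) * (D S : F)) * (discr F : ℚ)| =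
      ((Fintype.card σ ^ Module.finrank ℚ F * Ideal.absNorm (Ideal.span {D S}) *
        (discr F).natAbs : ℕ) : ℚ) := by
    intro S _
    rw [hn, abs_mul, abs_mul, Ideal.absNorm_span_singleton, Nat.cast_mul, Nat.cast_mul, Nat.cast_pow,
      abs_of_nonneg (by positivity : (0 : ℚ) ≤ (Fintype.card σ : ℚ) ^ Module.finrank ℚ F)]
    congr 2
    · rw [← Int.cast_abs, Int.abs_eq_natAbs]
      simp
    · rw [← Int.cast_abs, Int.abs_eq_natAbs]
      simp
  rw [prod_congr rfl h3] at h2
  exact_mod_cast h2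

end disc

end Pool.Agent.Q214.ESB
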